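import Pool.Agent.Q26.KP.Defs
import Pool.Agent.Q26.KF.Main
import Pool.Agent.H447R3.SpC

/-!
# The even Kunneth projector in families
-/

open CategoryTheory AlgebraicGeometry

universe u v u₀ v₀

namespace Pool.Agent.Q26.KP

open Pool.Agent.H914 Pool.Agent.H914.VarClass Pool.Agent.H914.VarClass.Obj
  Pool.Agent.H914.WeilCohomology Pool.Agent.H447 Pool.Agent.Q26.KF

section Num

variable {K : Type*} [Field K] [CharZero K] {V : Type*} [AddCommGroup V] [Module K V]
  [Module.Finite K V] {gr : ℕ → Submodule K V} {R : ℤ → Module.End K V → Prop}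

omit [CharZero K] [Module.Finite K V] in
theorem evenProj_mul_evenProj (h : DirectSum.IsInternal gr) :
    evenProj h * evenProj h = evenProj h := by
  rw [evenProj, scal_mul]
  congr 1
  funext i
  split_ifs <;> simp

/-- The even projector is a polynomial in each operator numerically equivalent to it. -/
theorem poly_of_num_even (hR : OpAlg gr R) (h : DirectSum.IsInternal gr) (hpar : R 0 (par h))
    {T : Module.End K V} (hT : R 0 T) (hp : R 0 (evenProj h)) (hnum : ∀ y, R 0 y →
      LinearMap.trace K V (par h * (T * y)) = LinearMap.trace K V (par h * (evenProj h * y))) :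
    ∃ g : Polynomial ℚ, evenProj h = ev T g := by
  have hTh : IsHom gr 0 T := by simpa using hR.hom hT
  have hTk : ∀ k : ℕ, R 0 (T ^ k) := fun k => hR.cast (hR.pow hT k) (by simp)
  have hc : ∀ c : ℕ → K, Commute T (scal h c) := by
    intro c
    have := hTh.scal_comm h (fun i => if 0 ≤ i then c i.toNat else 0)
      (fun i => if 0 ≤ i then c i.toNat else 0) (fun i => by rw [add_zero])
    simp only [Int.natCast_nonneg, if_true, Int.toNat_natCast] at this
    exact this.symm
  have hcomm : Commute T (evenProj h) := hc _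
  have hcommp : Commute T (par h) := hc _
  have hpp : evenProj h * par h = par h * evenProj h := by
    rw [par, evenProj, scal_mul, scal_mul]
    congr 1
    funext j
    rw [mul_comm]
  -- the traces
  have key : ∀ y, R 0 y → LinearMap.trace K V (T * y) = LinearMap.trace K V (evenProj h * y) := by
    intro y hy
    have h1 := hnum (par h * y) (hR.cast (hR.mul hpar hy) (by ring))
    have e1 : par h * (T * (par h * y)) = T * y := by
      rw [← mul_assoc T, hcommp.eq, mul_assoc, ← mul_assoc, par_mul_par, one_mul]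
    have e2 : par h * (evenProj h * (par h * y)) = evenProj h * y := by
      rw [← mul_assoc (evenProj h), hpp, mul_assoc, ← mul_assoc, par_mul_par, one_mul]
    rw [e1, e2] at h1
    exact h1
  refine exists_poly_of_proj (p := evenProj h) (ε := 1) (σ := 1) (evenProj_mul_evenProj h) hcomm
    (one_mul _) (by rw [one_mul, one_smul]) one_ne_zero ?_ ?_
  · intro k
    rw [one_mul, one_mul, pow_succ', key _ (hTk k)]
  · intro k hk
    obtain ⟨k, rfl⟩ : ∃ k', k = k' + 1 := ⟨k - 1, by omega⟩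
    rw [one_mul, one_mul, pow_succ', key _ (hTk _), pow_succ', key _ (hTk _), ← mul_assoc,
      ← hcomm.eq, mul_assoc, key _ (hR.cast (hR.mul hp (hTk k)) (by ring)), ← mul_assoc,
      evenProj_mul_evenProj]

end Num

variable {k : Type u} [Field k] {𝒱 : VarClass k} {ops : CycleOps 𝒱}
  {k₀ : Type u₀} [Field k₀] {𝒱₀ : VarClass k₀} {ops₀ : CycleOps 𝒱₀}
  {W : WeilCohomology.{u, v} ops} {W₀ : WeilCohomology.{u₀, v₀} ops₀} {X : 𝒱.Obj}
  {X₀ Y : 𝒱₀.Obj}

theorem corr_even {X : 𝒱.Obj} {P : (X.prod X).Cycles} (h : IsEven W X P) :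
    W.corr (W.cl _ P) = evenProj (W.isInternal X) := isEvenProj_iff.1 h.2

theorem even_of_rop (h : ROp W X 0 (evenProj (W.isInternal X))) : ∃ P, IsEven W X P := by
  obtain ⟨P, hP, hP'⟩ := exists_of_rop (p := X.dim) (by simp) h
  exact ⟨P, hP, isEvenProj_iff.2 hP'⟩

theorem sign_of_rop (h : ROp W X 0 (evenProj (W.isInternal X))) : SignStd W X := by
  obtain ⟨P, hP, hP'⟩ := exists_of_rop (p := X.dim) (by simp) h
  exact ⟨P, hP, isEvenProj_iff.2 hP'⟩

theorem inv_even (F : Family W W₀ X X₀ Y) :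
    IsInvariant (W₀.gr X₀) F.mono (evenProj (W₀.isInternal X₀)) := by
  refine ⟨?_, ?_⟩
  · intro j a ha
    rw [evenProj, scal_apply _ _ ha]
    exact Submodule.smul_mem _ _ ha
  · intro g hg a
    have h1 : evenProj (W₀.isInternal X₀) * g = g * evenProj (W₀.isInternal X₀) := by
      apply gr_ext (W₀.isInternal X₀)
      intro j a ha
      have h2 := F.mono_mem g hg j a ha
      rw [Module.End.mul_apply, Module.End.mul_apply, evenProj, scal_apply _ _ ha,
        scal_apply _ _ h2, map_smul]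
    exact congrArg (fun G => G a) h1

theorem e_even (F : Family W W₀ X X₀ Y) {j : ℕ} {a : W.H X} (ha : a ∈ W.gr X j) :
    F.e (evenProj (W.isInternal X) a) = evenProj (W₀.isInternal X₀) (F.e a) := by
  have ha' := (F.iso.gr j a).2 ha
  rw [evenProj, evenProj, scal_apply _ _ ha, scal_apply _ _ ha', F.iso.semi]
  split_ifs
  · rw [map_one]
  · rw [map_zero]

/-- `C⁺(X₀)` and the extension of the even projector give `C⁺(X)`. -/
theorem of_extends (F : Family W W₀ X X₀ Y) (hC : SignStd W₀ X₀) (hE : ExtendsEven F) :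
    SignStd W X := by
  have hOA := rop_opAlg (W := W) (X := X)
  have hOA₀ := rop_opAlg (W := W₀) (X := X₀)
  have hpar := par_rop_of_sign hC
  obtain ⟨P, hP, hPi⟩ := hC
  have hPe : IsEven W₀ X₀ P := ⟨hP, hPi⟩
  have hp : ROp W₀ X₀ 0 (evenProj (W₀.isInternal X₀)) := by
    rw [← corr_even hPe]
    exact rop_corr (by simp) hP
  obtain ⟨z, hz, hnum⟩ := hE P hPe
  have hzm := act_mem (ops := ops₀) F.γ_mem hz
  have h1 : NumRep W₀ (X₀.prod X₀) X₀.dim (act ops₀ F.γ z) (W₀.cl _ P) := by
    intro c hc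
    have h2 : (X₀.prod X₀).V.degCycle (ops₀.mul (act ops₀ F.γ z) c) =
        (X₀.prod X₀).V.degCycle (ops₀.mul P c) := hnum c hc
    rw [h2, deg_mul (W := W₀) hP hc (by rw [dim_prod])]
    rfl
  rw [numRep_iff hzm (W₀.cl_mem hP), corr_even hPe] at h1
  obtain ⟨g, hg⟩ := poly_of_num_even hOA₀ (W₀.isInternal X₀) hpar (rop_corr (by simp) hzm) hp h1
  obtain ⟨w, hw, hm⟩ := F.generic z hz
  have hm' : Matches F.e (W.corr (W.cl (X.prod X) w))
      (W₀.corr (W₀.cl (X₀.prod X₀) (act ops₀ F.γ z))) := hm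
  have hm2 := Matches.ev F.iso.semi hm' g
  apply sign_of_rop
  have h3 : evenProj (W.isInternal X) = ev (W.corr (W.cl _ w)) g := by
    apply gr_ext (W.isInternal X)
    intro j a ha
    apply F.e.injective
    rw [hm2, ← hg]
    exact e_even F ha
  rw [h3]
  exact hOA.ev (rop_corr (by simp) hw) g

/-- `C⁺(X)` gives a cycle on `Y`. -/
theorem exists_of_sign (F : Family W W₀ X X₀ Y) (hC : SignStd W X) :
    ∃ z, Y.IsCyc X₀.dim z ∧
      W₀.corr (W₀.cl (X₀.prod X₀) (act ops₀ F.γ z)) = evenProj (W₀.isInternal X₀) := by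
  obtain ⟨w, hw, hwi⟩ := hC
  refine F.descent w hw _ (inv_even F) ?_
  have h1 := isEvenProj_iff.1 hwi
  change Matches F.e (W.corr (W.cl (X.prod X) w)) _
  rw [h1]
  intro a
  have h3 : a ∈ (⊤ : Submodule W.K (W.H X)) := Submodule.mem_top
  rw [← (W.isInternal X).submodule_iSup_eq_top] at h3
  induction h3 using Submodule.iSup_induction' with
  | mem j a ha => exact e_even F ha
  | zero => rw [map_zero, map_zero, map_zero]
  | add x y _ _ hx hy => rw [map_add, map_add, map_add, map_add, hx, hy]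

theorem sign_fibre (F : Family W W₀ X X₀ Y) (hC : SignStd W X) : SignStd W₀ X₀ := by
  apply sign_of_rop
  obtain ⟨z, hz, hzi⟩ := exists_of_sign F hC
  rw [← hzi]
  exact rop_corr (by simp) (act_mem F.γ_mem hz)

theorem corr_sub {X : 𝒱.Obj} (x y : W.H (X.prod X)) : W.corr (x - y) = W.corr x - W.corr y := by
  rw [eq_sub_iff_add_eq, ← corr_add, sub_add_cancel]

theorem extends_of_sign (F : Family W W₀ X X₀ Y) (hC : SignStd W X) : ExtendsEven F := by
  intro P hPe
  have hP := hPe.1
  obtain ⟨z, hz, hzi⟩ := exists_of_sign F hC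
  refine ⟨z, hz, fun c hc => ?_⟩
  have h1 : W₀.cl (X₀.prod X₀) (act ops₀ F.γ z) = W₀.cl _ P := by
    have h2 : W₀.corr (W₀.cl (X₀.prod X₀) (act ops₀ F.γ z) - W₀.cl _ P) = 0 := by
      rw [corr_sub, hzi, corr_even hPe, sub_self]
    exact sub_eq_zero.1 (corr_inj h2)
  change (X₀.prod X₀).V.degCycle (ops₀.mul (act ops₀ F.γ z) c) =
    (X₀.prod X₀).V.degCycle (ops₀.mul P c)
  have h4 : ((X₀.prod X₀).V.degCycle (ops₀.mul (act ops₀ F.γ z) c) : W₀.K) =
      ((X₀.prod X₀).V.degCycle (ops₀.mul P c) : W₀.K) := by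
    rw [deg_mul (W := W₀) (act_mem F.γ_mem hz) hc (by rw [dim_prod]),
      deg_mul (W := W₀) hP hc (by rw [dim_prod]), h1]
  exact_mod_cast h4

/-- A cycle on `X₀ × X₀` is numerically equivalent to the restriction of a cycle on `Y` if and only if
it is orthogonal to the cycles whose images in `Y` are numerically trivial. -/
theorem ext_iff_orth (F : Family W W₀ X X₀ Y) {P : (X₀.prod X₀).Cycles}
    (hP : (X₀.prod X₀).IsCyc X₀.dim P) :
    (∃ z, Y.IsCyc X₀.dim z ∧ ∀ c, (X₀.prod X₀).IsCyc X₀.dim c →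
      deg ops₀ (X₀.prod X₀) (F.res z) c = deg ops₀ (X₀.prod X₀) P c) ↔
    ∀ c, (X₀.prod X₀).IsCyc X₀.dim c → NumTrivialOn F c → deg ops₀ (X₀.prod X₀) P c = 0 := by
  constructor
  · rintro ⟨z, hz, h⟩ c hc hnum
    rw [← h c hc]
    refine (deg_act F hz hc).trans ?_
    exact hnum z hz
  · intro hO
    have hdim : X₀.dim + X₀.dim = (X₀.prod X₀).dim := by rw [dim_prod]
    have hcl : ∀ (p q : Y.Cycles), W₀.cl (X₀.prod X₀) (act ops₀ F.γ (p + q)) =
        W₀.cl _ (act ops₀ F.γ p) + W₀.cl _ (act ops₀ F.γ q) := by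
      intro p q
      rw [cl_act, cl_act, cl_act, map_add, map_add]
    have hcs : ∀ (r : ℚ) (p : Y.Cycles), W₀.cl (X₀.prod X₀) (act ops₀ F.γ (r • p)) =
        (r : W₀.K) • W₀.cl _ (act ops₀ F.γ p) := by
      intro r p
      rw [cl_act, cl_act, cl_smul, map_smul]
    let β : cyc Y X₀.dim →ₗ[ℚ] cyc (X₀.prod X₀) X₀.dim →ₗ[ℚ] ℚ :=
      LinearMap.mk₂ ℚ (fun z c => (X₀.prod X₀).V.degCycle (ops₀.mul (act ops₀ F.γ z.1) c.1))
        (by
          intro m₁ m₂ c
          apply Rat.cast_injective (α := W₀.K)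
          rw [Rat.cast_add, deg_mul (W := W₀) (act_mem F.γ_mem (m₁ + m₂).2) c.2 hdim,
            deg_mul (W := W₀) (act_mem F.γ_mem m₁.2) c.2 hdim,
            deg_mul (W := W₀) (act_mem F.γ_mem m₂.2) c.2 hdim, ← map_add, ← add_mul, ← hcl]
          rfl)
        (by
          intro r m c
          apply Rat.cast_injective (α := W₀.K)
          rw [smul_eq_mul, Rat.cast_mul, deg_mul (W := W₀) (act_mem F.γ_mem (r • m).2) c.2 hdim,
            deg_mul (W := W₀) (act_mem F.γ_mem m.2) c.2 hdim, Submodule.coe_smul, hcs,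
            smul_mul_assoc, map_smul, smul_eq_mul])
        (by
          intro m c₁ c₂
          apply Rat.cast_injective (α := W₀.K)
          rw [Rat.cast_add, deg_mul (W := W₀) (act_mem F.γ_mem m.2) (c₁ + c₂).2 hdim,
            deg_mul (W := W₀) (act_mem F.γ_mem m.2) c₁.2 hdim,
            deg_mul (W := W₀) (act_mem F.γ_mem m.2) c₂.2 hdim, ← map_add, ← mul_add, ← map_add]
          rfl)
        (by
          intro r m c
          apply Rat.cast_injective (α := W₀.K)
          rw [smul_eq_mul, Rat.cast_mul, deg_mul (W := W₀) (act_mem F.γ_mem m.2) (r • c).2 hdim,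
            deg_mul (W := W₀) (act_mem F.γ_mem m.2) c.2 hdim, Submodule.coe_smul, cl_smul,
            mul_smul_comm, map_smul, smul_eq_mul])
    let φ : cyc (X₀.prod X₀) X₀.dim →ₗ[ℚ] ℚ :=
      { toFun := fun c => (X₀.prod X₀).V.degCycle (ops₀.mul P c.1)
        map_add' := by
          intro c₁ c₂
          apply Rat.cast_injective (α := W₀.K)
          rw [Rat.cast_add, deg_mul (W := W₀) hP (c₁ + c₂).2 hdim, deg_mul (W := W₀) hP c₁.2 hdim,
            deg_mul (W := W₀) hP c₂.2 hdim, ← map_add, ← mul_add, ← map_add]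
          rfl
        map_smul' := by
          intro r c
          apply Rat.cast_injective (α := W₀.K)
          rw [RingHom.id_apply, smul_eq_mul, Rat.cast_mul, deg_mul (W := W₀) hP (r • c).2 hdim,
            deg_mul (W := W₀) hP c.2 hdim, Submodule.coe_smul, cl_smul,
            mul_smul_comm, map_smul, smul_eq_mul] }
    obtain ⟨z, hz⟩ := exists_eq_of_orth (bil W₀ (X₀.prod X₀))
      (fun z : cyc Y X₀.dim => W₀.cl _ (act ops₀ F.γ z.1))
      (fun c : cyc (X₀.prod X₀) X₀.dim => W₀.cl _ c.1) β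
      (fun z c => deg_mul (W := W₀) (act_mem F.γ_mem z.2) c.2 hdim) φ (by
        intro c hc
        refine hO c.1 c.2 (fun z hz => ?_)
        exact (deg_act F hz c.2).symm.trans (hc ⟨z, hz⟩))
    exact ⟨z.1, z.2, fun c hc => congrArg (fun ψ => ψ ⟨c, hc⟩) hz⟩

theorem extends_iff_orthogonal (F : Family W W₀ X X₀ Y) : ExtendsEven F ↔ OrthogonalEven F :=
  ⟨fun h c hc hn P hP => (ext_iff_orth F hP.1).1 (h P hP) c hc hn,
    fun h P hP => (ext_iff_orth F hP.1).2 fun c hc hn => h c hc hn P hP⟩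

/-- The conjecture D for the cycles on `Y` gives the orthogonality. -/
theorem orthogonal_of_homEqNum (F : Family W W₀ X X₀ Y) (hD : HomEqNumOnFibre F) :
    OrthogonalEven F := by
  intro c hc hnum P hPe
  have hP := hPe.1
  have h1 : W₀.cl Y (coact ops₀ F.γ c) = 0 := hD c hc hnum
  obtain ⟨h, -, hh'⟩ := F.fixed _ (inv_even F)
  have hh : W₀.corr (W₀.corr (W₀.cl (Y.prod (X₀.prod X₀)) F.γ) h) =
      evenProj (W₀.isInternal X₀) := hh'
  have h2 : W₀.cl (X₀.prod X₀) P = W₀.corr (W₀.cl _ F.γ) h := by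
    have h3 : W₀.corr (W₀.cl (X₀.prod X₀) P - W₀.corr (W₀.cl _ F.γ) h) = 0 := by
      rw [corr_sub, hh, corr_even hPe, sub_self]
    exact sub_eq_zero.1 (corr_inj h3)
  change (X₀.prod X₀).V.degCycle (ops₀.mul P c) = 0
  have h4 : ((X₀.prod X₀).V.degCycle (ops₀.mul P c) : W₀.K) = 0 := by
    rw [deg_mul (W := W₀) hP hc (by rw [dim_prod]), h2, adj hc, h1, zero_mul, map_zero]
  exact_mod_cast h4

end Pool.Agent.Q26.KP
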