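import Pool.Agent.Q26.KP.NDefs

/-!
# The sign conjecture in families with a compactification: definitions
-/

set_option autoImplicit false

open CategoryTheory Limits MonoidalCategory TensorProduct

namespace Pool.Agent.Q26.KP

open Pool.Agent.Y112.SR Q20.Cp

universe v u w v₀ u₀ w₀

section

variable {C₀ : Type u₀} [Category.{v₀} C₀] [Preadditive C₀] [MonoidalCategory C₀]
  [SymmetricCategory C₀] {K₀ : Type w₀} [Field K₀] {M₀ B : C₀}

/-- For a morphism `r : B ⊗ M₀ ⟶ M₀` and a class `z` on `B` (a morphism from the unit to `B`) the
endomorphism `r (z ⊗ -)` of `M₀`. -/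
def resE (r : B ⊗ M₀ ⟶ M₀) (z : 𝟙_ C₀ ⟶ B) : M₀ ⟶ M₀ := (λ_ M₀).inv ≫ z ▷ M₀ ≫ r

/-- The same for a class `h` in the realisation of `B`. -/
def resH (R₀ : SuperRealisation C₀ K₀) (r : B ⊗ M₀ ⟶ M₀) (h : 𝟙_ (ModuleCat.{w₀} K₀) ⟶ R₀.H.obj B) :
    R₀.H.obj M₀ ⟶ R₀.H.obj M₀ :=
  (λ_ (R₀.H.obj M₀)).inv ≫ h ▷ R₀.H.obj M₀ ≫ Functor.LaxMonoidal.μ R₀.H B M₀ ≫ R₀.H.map r

variable [RightRigidCategory C₀]

/-- For `r : B ⊗ M₀ ⟶ M₀` and an endomorphism `c` of `M₀` the partial trace over `M₀` of `r` followed
by `c`: a morphism from `B` to the unit. -/
def imE (r : B ⊗ M₀ ⟶ M₀) (c : M₀ ⟶ M₀) : B ⟶ 𝟙_ C₀ :=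
  (ρ_ B).inv ≫ B ◁ η_ M₀ M₀ᘁ ≫ (α_ B M₀ M₀ᘁ).inv ≫ (r ≫ c) ▷ M₀ᘁ ≫ (β_ M₀ M₀ᘁ).hom ≫ ε_ M₀ M₀ᘁ

end

variable {C : Type u} [Category.{v} C] [Preadditive C] [MonoidalCategory C] [SymmetricCategory C]
  {C₀ : Type u₀} [Category.{v₀} C₀] [Preadditive C₀] [MonoidalCategory C₀] [SymmetricCategory C₀]
  {K : Type w} [Field K] {K₀ : Type w₀} [Field K₀]
  {R : SuperRealisation C K} {R₀ : SuperRealisation C₀ K₀} {M : C} {M₀ : C₀}

/-- The restriction `r` from the compactification `B` to the special fibre and the monodromy operators
`mono`, see `Compactification`. -/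
structure CompactificationData (S : Specialization R R₀ M M₀) (B : C₀) where
  /-- the restriction to the special fibre: a class on `B` gives an endomorphism of `M₀` -/
  r : B ⊗ M₀ ⟶ M₀
  /-- the monodromy operators -/
  mono : Set (R₀.H.obj M₀ ⟶ R₀.H.obj M₀)

section

variable {S : Specialization R R₀ M M₀} {B : C₀}

/-- The operator `f` preserves the parity and commutes with the monodromy. -/
def CompactificationData.Inv (T : CompactificationData S B) (f : R₀.H.obj M₀ ⟶ R₀.H.obj M₀) : Prop :=
  f ≫ R₀.par M₀ = R₀.par M₀ ≫ f ∧ ∀ g ∈ T.mono, f ≫ g = g ≫ f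

/-- If the endomorphism `x` of `M₀` is a specialization of an endomorphism of `M` and its realisation
commutes with the monodromy, then it has the same realisation as the restriction of a class on `B`. -/
def CompactificationData.Descent (T : CompactificationData S B) : Prop :=
  ∀ x, Lifts S x → T.Inv (R₀.H.map x) → ∃ z, R₀.H.map (resE T.r z) = R₀.H.map x

/-- The monodromy operators preserve the parity. -/
def CompactificationData.Parity (T : CompactificationData S B) : Prop :=
  ∀ g ∈ T.mono, R₀.par M₀ ≫ g = g ≫ R₀.par M₀

/-- The restrictions of the classes on `B` lift to `M`. -/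
def CompactificationData.Generic (T : CompactificationData S B) : Prop :=
  ∀ z, Lifts S (resE T.r z)

/-- The operators which commute with the monodromy are restrictions of classes in the realisation
of `B`. -/
def CompactificationData.Fixed (T : CompactificationData S B) : Prop :=
  ∀ f, T.Inv f → ∃ h, resH R₀ T.r h = f

end

/-- Here `M` and `M₀` are the motives of the geometric generic fibre `A` and of a special fibre `A₀` of a
family of smooth proper dg categories over a variety over the algebraically closed field `k₀`, and `B`
is the motive of a smooth proper dg category over `k₀` which is a compactification of the family of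
the `A^op ⊗ A` (possibly after a generically finite base change). `generic`: a class on `B` gives an
endomorphism of `M` whose specialization is its restriction to the special fibre. `descent`: an
endomorphism of `M` is defined over a finite extension of the function field of the base, take the
trace and extend the result to `B`. `fixed`: the theorem on the fixed part. -/
structure Compactification (S : Specialization R R₀ M M₀) (B : C₀) extends
    CompactificationData S B where
  parity : toCompactificationData.Parity
  generic : toCompactificationData.Generic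
  descent : toCompactificationData.Descent
  fixed : toCompactificationData.Fixed

variable [RightRigidCategory C₀] {S : Specialization R R₀ M M₀} {B : C₀}

/-- The endomorphisms of `M₀` which give the even projector are numerically equivalent to restrictions
of classes on `B`. -/
def ExtendsTo (T : Compactification S B) : Prop :=
  ∀ P, IsEvenEnd R₀ M₀ P → ∃ z, NumTriv (resE T.r z - P)

/-- The image of `c` in `B` is numerically trivial. -/
def NumTrivialIn (T : Compactification S B) (c : M₀ ⟶ M₀) : Prop :=
  ∀ z : 𝟙_ C₀ ⟶ B, z ≫ imE T.r c = 0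

/-- The endomorphisms of `M₀` which give the even projector are orthogonal to those whose images in
`B` are numerically trivial. -/
def OrthogonalTo (T : Compactification S B) : Prop :=
  ∀ c, NumTrivialIn T c → ∀ P, IsEvenEnd R₀ M₀ P → ctr (P ≫ c) = 0

/-- The images in `B` of endomorphisms of `M₀` are homologically trivial if they are numerically
trivial. -/
def HomEqNumIn (T : Compactification S B) : Prop :=
  ∀ c, NumTrivialIn T c → R₀.H.map (imE T.r c) = 0

end Pool.Agent.Q26.KP
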