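import Pool.Agent.Q26.KP.NDefs
import Pool.Agent.Q26.KF.Main

/-!
# The sign conjecture and specialization
-/

set_option autoImplicit false
set_option linter.unusedSectionVars false

open CategoryTheory hiding op_comp op_id op_sub op_add
open Limits MonoidalCategory Polynomial

namespace Pool.Agent.Q26.KP

open Pool.Agent.Y112.SR Q20.Cp

universe v u w v₀ u₀ w₀

section One

variable {C : Type u} [Category.{v} C] [Preadditive C] [Linear ℚ C] [MonoidalCategory C]
  [SymmetricCategory C] [RightRigidCategory C] {K : Type w} [Field K] (R : SuperRealisation C K)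

lemma ctr_eq_zero_iff (hC : RationalUnit C) {M : C} (z : M ⟶ M) :
    ctr z = 0 ↔ LinearMap.trace K (R.H.obj M) (gr R M * op R z) = 0 := by
  have := R_charZero R
  constructor
  · intro h
    have h1 : ctr z = (0 : ℚ) • 𝟙 (𝟙_ C) := by rw [h, zero_smul]
    have h2 := str_of_ctr R h1
    rwa [Rat.cast_zero] at h2
  · intro h
    obtain ⟨q, hq⟩ := hC (ctr z)
    have h1 := str_of_ctr R hq
    rw [h] at h1
    have h2 : q = 0 := by exact_mod_cast h1.symm
    rw [hq, h2, zero_smul]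

lemma str_cyc {M : C} (f : M ⟶ M) (B : Module.End K (R.H.obj M)) :
    LinearMap.trace K (R.H.obj M) (gr R M * (op R f * B)) =
      LinearMap.trace K (R.H.obj M) (gr R M * (B * op R f)) := by
  rw [← mul_assoc, ← op_comm, mul_assoc, LinearMap.trace_mul_comm, mul_assoc]

lemma str_comm {M : C} (f g : M ⟶ M) :
    LinearMap.trace K (R.H.obj M) (gr R M * (op R f * op R g)) =
      LinearMap.trace K (R.H.obj M) (gr R M * (op R g * op R f)) := by
  rw [← mul_assoc, ← op_comm, mul_assoc, LinearMap.trace_mul_comm, mul_assoc]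

lemma numTriv_iff (hC : RationalUnit C) {M : C} (f : M ⟶ M) :
    NumTriv f ↔ ∀ g : M ⟶ M, LinearMap.trace K (R.H.obj M) (gr R M * (op R f * op R g)) = 0 := by
  constructor
  · intro h g
    rw [str_comm, ← op_comp]
    exact (ctr_eq_zero_iff R hC _).1 (h g)
  · intro h g
    rw [ctr_eq_zero_iff R hC, op_comp, ← str_comm]
    exact h g

lemma isEvenEnd_iff {M : C} (P : M ⟶ M) : IsEvenEnd R M P ↔ (2 : K) • op R P = 1 + gr R M := by
  constructor
  · intro h
    exact congrArg ModuleCat.Hom.hom h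
  · intro h
    exact ModuleCat.hom_ext h

end One

section Two

variable {C : Type u} [Category.{v} C] [Preadditive C] [Linear ℚ C] [MonoidalCategory C]
  [SymmetricCategory C] [RightRigidCategory C]
  {C₀ : Type u₀} [Category.{v₀} C₀] [Preadditive C₀] [Linear ℚ C₀] [MonoidalCategory C₀]
  [SymmetricCategory C₀] [RightRigidCategory C₀]
  {K : Type w} [Field K] {K₀ : Type w₀} [Field K₀]
  {R : SuperRealisation C K} {R₀ : SuperRealisation C₀ K₀} {M : C} {M₀ : C₀}

lemma gives_iff (S : Specialization R R₀ M M₀) {w : M ⟶ M} {x : M₀ ⟶ M₀} :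
    S.Gives w x ↔ ∀ a, S.e (op R w a) = op R₀ x (S.e a) := Iff.rfl

lemma par' (S : Specialization R R₀ M M₀) (a : R.H.obj M) :
    S.e (gr R M a) = gr R₀ M₀ (S.e a) := S.par a

lemma lifts_affine (S : Specialization R R₀ M M₀) {w : M ⟶ M} {x : M₀ ⟶ M₀} (h : S.Gives w x)
    (p q : ℚ) : S.Gives (p • w + q • 𝟙 M) (p • x + q • 𝟙 M₀) := by
  have := R_charZero R
  have := R_charZero R₀
  rw [gives_iff] at h ⊢
  intro a
  rw [op_add, op_add, op_smul, op_smul, op_smul, op_smul, op_id, op_id, LinearMap.add_apply,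
    LinearMap.add_apply, map_add, LinearMap.smul_apply, LinearMap.smul_apply, LinearMap.smul_apply,
    LinearMap.smul_apply, S.semi, S.semi, h, map_ratCast, map_ratCast]
  rfl

/-- The submodule of the liftable endomorphisms. -/
def liftsSub (S : Specialization R R₀ M M₀) : Submodule ℚ (M₀ ⟶ M₀) where
  carrier := {x | Lifts S x}
  zero_mem' := by
    refine ⟨0, ?_⟩
    have := R_charZero R
    have := R_charZero R₀
    have h : S.Gives (𝟙 M) (𝟙 M₀) := by
      rw [gives_iff]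
      intro a
      rw [op_id, op_id]
      rfl
    have h1 := lifts_affine S h 0 0
    simpa only [zero_smul, add_zero] using h1
  add_mem' := by
    rintro x y ⟨w, hw⟩ ⟨t, ht⟩
    refine ⟨w + t, ?_⟩
    rw [gives_iff] at hw ht ⊢
    intro a
    rw [op_add, op_add, LinearMap.add_apply, LinearMap.add_apply, map_add, hw, ht]
  smul_mem' := by
    rintro q x ⟨w, hw⟩
    refine ⟨q • w, ?_⟩
    have h1 := lifts_affine S hw q 0
    simpa only [zero_smul, add_zero] using h1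

theorem ev_transport (S : Specialization R R₀ M M₀) {w : M ⟶ M} {x : M₀ ⟶ M₀} (h : S.Gives w x)
    (p : K₀[X]) (a : R.H.obj M) :
    S.e (aeval (op R w) (p.map (S.s.symm : K₀ →+* K)) a) = aeval (op R₀ x) p (S.e a) := by
  rw [gives_iff] at h
  have hpow : ∀ (m : ℕ) (a : R.H.obj M), S.e ((op R w ^ m) a) = (op R₀ x ^ m) (S.e a) := by
    intro m
    induction m with
    | zero => intro a; simp
    | succ m ih =>
      intro a
      rw [pow_succ, pow_succ, Module.End.mul_apply, Module.End.mul_apply, ih, h]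
  induction p using Polynomial.induction_on' with
  | add p q hp hq =>
    rw [Polynomial.map_add, map_add, map_add, LinearMap.add_apply, LinearMap.add_apply, map_add, hp,
      hq]
  | monomial m c =>
    rw [Polynomial.map_monomial, aeval_monomial, aeval_monomial, Module.End.mul_apply,
      Module.End.mul_apply, Module.algebraMap_end_apply, Module.algebraMap_end_apply, S.semi, hpow]
    congr 1
    exact S.s.apply_symm_apply c

/-- `C⁺(M)` gives `C⁺(M₀)` and the lifting of the even projector. -/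
theorem lift_of_cplus (S : Specialization R R₀ M M₀) (h : R.CPlus M) :
    ∃ x, Lifts S x ∧ op R₀ x = gr R₀ M₀ := by
  rw [cplus_iff_range] at h
  obtain ⟨w, hw⟩ := h
  replace hw : op R w = gr R M := hw
  obtain ⟨x, hx⟩ := S.specializes w
  refine ⟨x, ⟨w, hx⟩, ?_⟩
  refine LinearMap.ext fun b => ?_
  obtain ⟨a, rfl⟩ := S.e.surjective b
  have h1 := (gives_iff S).1 hx a
  rw [← h1, hw, par']

theorem cplus_fibre (S : Specialization R R₀ M M₀) (h : R.CPlus M) : R₀.CPlus M₀ := by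
  obtain ⟨x, -, hx⟩ := lift_of_cplus S h
  rw [cplus_iff_range]
  exact ⟨x, hx⟩

theorem one_two (hC₀ : RationalUnit C₀) (S : Specialization R R₀ M M₀) (h : R.CPlus M)
    (P : M₀ ⟶ M₀) (hP : IsEvenEnd R₀ M₀ P) : ∃ x, Lifts S x ∧ NumTriv (x - P) := by
  have := R_charZero R₀
  obtain ⟨x, ⟨w, hw⟩, hx⟩ := lift_of_cplus S h
  refine ⟨(2⁻¹ : ℚ) • x + (2⁻¹ : ℚ) • 𝟙 M₀, ⟨_, lifts_affine S hw 2⁻¹ 2⁻¹⟩, ?_⟩
  rw [isEvenEnd_iff] at hP
  have h1 : op R₀ ((2⁻¹ : ℚ) • x + (2⁻¹ : ℚ) • 𝟙 M₀ - P) = 0 := by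
    have h2 : (2 : K₀) ≠ 0 := two_ne_zero
    have h3 : (2 : K₀) • op R₀ ((2⁻¹ : ℚ) • x + (2⁻¹ : ℚ) • 𝟙 M₀ - P) = 0 := by
      rw [op_sub, op_add, op_smul, op_smul, op_id, smul_sub, smul_add, smul_smul, smul_smul, hP, hx]
      push_cast
      rw [mul_inv_cancel₀ h2, one_smul, one_smul]
      abel
    exact (smul_eq_zero.1 h3).resolve_left h2
  rw [numTriv_iff R₀ hC₀]
  intro g
  rw [h1, zero_mul, mul_zero, map_zero]

theorem two_four (hC₀ : RationalUnit C₀) (S : Specialization R R₀ M M₀) (h : R₀.CPlus M₀)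
    (hl : ∀ P, IsEvenEnd R₀ M₀ P → ∃ x, Lifts S x ∧ NumTriv (x - P)) :
    ∃ x, Lifts S x ∧ NumTriv (x ≫ x - 𝟙 M₀) ∧ ctr x = (dimH R₀ M₀ : ℚ) • 𝟙 (𝟙_ C₀) := by
  have := R_charZero R₀
  have := R₀.finite M₀
  obtain ⟨P, hP⟩ := h
  replace hP : IsEvenEnd R₀ M₀ P := hP
  obtain ⟨x, ⟨w, hw⟩, hx⟩ := hl P hP
  rw [isEvenEnd_iff] at hP
  rw [numTriv_iff R₀ hC₀] at hx
  have h2 : (2 : K₀) ≠ 0 := two_ne_zero
  set ε := gr R₀ M₀ with hε
  set X := op R₀ x with hX
  set p := op R₀ P with hp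
  have hεε : ε * ε = 1 := gr_sq R₀ M₀
  have hpe : ε = (2 : K₀) • p - 1 := by rw [hP]; abel
  have hpp : p * p = p := by
    have h3 : (4 : K₀) • (p * p) = (4 : K₀) • p := by
      have h4 : ((2 : K₀) • p - 1) * ((2 : K₀) • p - 1) = 1 := by rw [← hpe]; exact hεε
      have h5 : ((2 : K₀) • p - 1) * ((2 : K₀) • p - 1) =
          (4 : K₀) • (p * p) - (4 : K₀) • p + 1 := by
        rw [sub_mul, mul_sub, mul_sub, smul_mul_smul_comm, mul_one, one_mul, mul_one]
        have : (4 : K₀) • p = (2 : K₀) • p + (2 : K₀) • p := by rw [← add_smul]; norm_num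
        rw [this]
        have : (2 : K₀) * 2 = 4 := by norm_num
        rw [this]
        abel
      rw [h5] at h4
      have h6 : (4 : K₀) • (p * p) - (4 : K₀) • p = 0 := by
        have := congrArg (fun t => t - 1) h4
        simpa using this
      exact sub_eq_zero.1 h6
    have h4 : (4 : K₀) ≠ 0 := by norm_num
    exact smul_right_injective _ h4 h3
  have hkey : ∀ g : M₀ ⟶ M₀, LinearMap.trace K₀ (R₀.H.obj M₀) (ε * ((X - p) * op R₀ g)) = 0 := by
    intro g
    have := hx g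
    rwa [op_sub] at this
  refine ⟨(2 : ℚ) • x + (-1 : ℚ) • 𝟙 M₀, ⟨_, lifts_affine S hw 2 (-1)⟩, ?_, ?_⟩
  · rw [numTriv_iff R₀ hC₀]
    intro g
    have h3 : op R₀ (((2 : ℚ) • x + (-1 : ℚ) • 𝟙 M₀) ≫ ((2 : ℚ) • x + (-1 : ℚ) • 𝟙 M₀) - 𝟙 M₀) =
        (4 : K₀) • (X * (X - p) + (X - p) * p - (X - p)) := by
      rw [op_sub, op_comp, op_add, op_smul, op_smul, op_id]
      push_cast
      rw [← hX]
      have e1 : ((2 : K₀) • X + (-1 : K₀) • 1) * ((2 : K₀) • X + (-1 : K₀) • 1) =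
          (4 : K₀) • (X * X) - (4 : K₀) • X + 1 := by
        rw [neg_one_smul, add_mul, mul_add, mul_add, smul_mul_smul_comm, mul_neg, mul_one, neg_mul,
          one_mul, neg_mul_neg, one_mul]
        have : (4 : K₀) • X = (2 : K₀) • X + (2 : K₀) • X := by rw [← add_smul]; norm_num
        rw [this]
        have : (2 : K₀) * 2 = 4 := by norm_num
        rw [this]
        abel
      rw [e1, mul_sub, sub_mul, hpp, add_sub_cancel_right, ← smul_sub]
      congr 1
      abel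
    rw [h3, smul_mul_assoc, mul_smul_comm, map_smul, sub_mul, add_mul, mul_sub, mul_add, map_sub,
      map_add, hkey, sub_zero]
    have h4 : LinearMap.trace K₀ (R₀.H.obj M₀) (ε * (X * (X - p) * op R₀ g)) = 0 := by
      have h5 := hkey (x ≫ g)
      rw [op_comp, ← hX, ← mul_assoc] at h5
      rw [mul_assoc X, hε, hX, str_cyc]
      exact h5
    have h5 : LinearMap.trace K₀ (R₀.H.obj M₀) (ε * ((X - p) * p * op R₀ g)) = 0 := by
      have h6 := hkey (g ≫ P)
      rw [op_comp, ← hp, ← mul_assoc] at h6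
      exact h6
    rw [h4, h5, add_zero, smul_zero]
  · obtain ⟨q, hq⟩ := hC₀ (ctr ((2 : ℚ) • x + (-1 : ℚ) • 𝟙 M₀))
    have h3 := str_of_ctr R₀ hq
    have h4 : op R₀ ((2 : ℚ) • x + (-1 : ℚ) • 𝟙 M₀) = (2 : K₀) • (X - p) + ε := by
      rw [op_add, op_smul, op_smul, op_id, hpe]
      push_cast
      rw [neg_one_smul, smul_sub]
      abel
    have h5 := hkey (𝟙 M₀)
    rw [op_id, mul_one] at h5
    rw [h4, mul_add, mul_smul_comm, map_add, map_smul, ← hε, h5, smul_zero, zero_add, hεε,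
      LinearMap.trace_one] at h3
    have h6 : q = (dimH R₀ M₀ : ℚ) := by
      have : ((Module.finrank K₀ (R₀.H.obj M₀) : ℚ) : K₀) = (q : K₀) := by
        rw [← h3]
        push_cast
        rfl
      exact (Rat.cast_injective this).symm
    rw [hq, h6]

theorem four_one (hC : RationalUnit C) (hC₀ : RationalUnit C₀) (S : Specialization R R₀ M M₀)
    (h : ∃ x, Lifts S x ∧ NumTriv (x ≫ x - 𝟙 M₀) ∧ ctr x = (dimH R₀ M₀ : ℚ) • 𝟙 (𝟙_ C₀)) :
    R.CPlus M := by
  have := R_charZero R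
  have := R_charZero R₀
  have := R₀.finite M₀
  obtain ⟨x, ⟨w, hw⟩, hx, hq⟩ := h
  have h0 : ∀ p : K₀[X], LinearMap.trace K₀ (R₀.H.obj M₀) (gr R₀ M₀ *
      ((op R₀ x * op R₀ x - 1) * aeval (op R₀ x) p)) = 0 := by
    intro p
    have h1 : op R₀ (x ≫ x - 𝟙 M₀) = op R₀ x * op R₀ x - 1 := by rw [op_sub, op_comp, op_id]
    rw [← h1]
    exact str_numTriv R₀ hx (span_aeval (isAlg R₀ hC₀ M₀) (op_mem R₀ M₀ x) p)
  obtain ⟨n, hn, hn0⟩ := str_le (gr_sq R₀ M₀) (op_comm R₀ x) h0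
  rw [str_of_ctr R₀ hq] at hn
  have h2 : n = 0 := by
    have h3 : ((dimH R₀ M₀ : K₀)) + n = dimH R₀ M₀ := by
      have : (((dimH R₀ M₀ : ℚ) : K₀)) = (dimH R₀ M₀ : K₀) := by push_cast; rfl
      rw [this] at hn
      exact hn
    have h4 : dimH R₀ M₀ + n = dimH R₀ M₀ := by exact_mod_cast h3
    omega
  obtain ⟨p, hp⟩ := hn0 h2
  refine cplus_of_aeval R hC w (p.map (S.s.symm : K₀ →+* K)) ?_
  refine LinearMap.ext fun a => S.e.injective ?_
  rw [ev_transport S hw, hp, par']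

/-- The rational number attached to an endomorphism. -/
noncomputable def rat (hC₀ : RationalUnit C₀) {M₀ : C₀} (z : M₀ ⟶ M₀) : ℚ := (hC₀ (ctr z)).choose

lemma rat_eq (R₀ : SuperRealisation C₀ K₀) (hC₀ : RationalUnit C₀) {M₀ : C₀} (z : M₀ ⟶ M₀) :
    (rat hC₀ z : K₀) = LinearMap.trace K₀ (R₀.H.obj M₀) (gr R₀ M₀ * op R₀ z) := by
  have := R_charZero R₀
  exact (str_of_ctr R₀ (hC₀ (ctr z)).choose_spec).symm

lemma rat_zero_iff (hC₀ : RationalUnit C₀) {M₀ : C₀} (R₀ : SuperRealisation C₀ K₀) (z : M₀ ⟶ M₀) :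
    rat hC₀ z = 0 ↔ ctr z = 0 := by
  have := R_charZero R₀
  rw [ctr_eq_zero_iff R₀ hC₀, ← rat_eq R₀ hC₀ z, Rat.cast_eq_zero]

/-- the pairing -/
noncomputable def pairing (R₀ : SuperRealisation C₀ K₀) (hC₀ : RationalUnit C₀) (M₀ : C₀) :
    (M₀ ⟶ M₀) →ₗ[ℚ] (M₀ ⟶ M₀) →ₗ[ℚ] ℚ :=
  haveI := R_charZero R₀
  LinearMap.mk₂ ℚ (fun z c => rat hC₀ (z ≫ c))
    (by
      intro m₁ m₂ c
      apply Rat.cast_injective (α := K₀)
      rw [Rat.cast_add, rat_eq R₀, rat_eq R₀, rat_eq R₀, op_comp, op_comp, op_comp, op_add, mul_add,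
        mul_add, map_add])
    (by
      intro r m c
      apply Rat.cast_injective (α := K₀)
      rw [smul_eq_mul, Rat.cast_mul, rat_eq R₀, rat_eq R₀, op_comp, op_comp, op_smul,
        mul_smul_comm, mul_smul_comm, map_smul, smul_eq_mul])
    (by
      intro m c₁ c₂
      apply Rat.cast_injective (α := K₀)
      rw [Rat.cast_add, rat_eq R₀, rat_eq R₀, rat_eq R₀, op_comp, op_comp, op_comp, op_add, add_mul,
        mul_add, map_add])
    (by
      intro r m c
      apply Rat.cast_injective (α := K₀)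
      rw [smul_eq_mul, Rat.cast_mul, rat_eq R₀, rat_eq R₀, op_comp, op_comp, op_smul,
        smul_mul_assoc, mul_smul_comm, map_smul, smul_eq_mul])

theorem two_iff_three (hC₀ : RationalUnit C₀) (S : Specialization R R₀ M M₀) (P : M₀ ⟶ M₀) :
    (∃ x, Lifts S x ∧ NumTriv (x - P)) ↔ ∀ c, OrthToLifts S c → ctr (P ≫ c) = 0 := by
  have := R_charZero R₀
  have := R₀.finite M₀
  constructor
  · rintro ⟨x, hx, hn⟩ c hc
    have h1 := hc x hx
    have h2 := hn c
    rw [ctr_eq_zero_iff R₀ hC₀] at h1 h2 ⊢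
    rw [op_comp, op_sub, mul_sub, mul_sub, map_sub, ← op_comp, ← op_comp, h1, zero_sub,
      neg_eq_zero] at h2
    exact h2
  · intro h
    let b : Module.End K₀ (R₀.H.obj M₀) →ₗ[K₀] Module.End K₀ (R₀.H.obj M₀) →ₗ[K₀] K₀ :=
      LinearMap.mk₂ K₀ (fun f g => LinearMap.trace K₀ (R₀.H.obj M₀) (gr R₀ M₀ * (g * f)))
        (by intro a b c; rw [mul_add, mul_add, map_add])
        (by intro r a c; rw [mul_smul_comm, mul_smul_comm, map_smul])
        (by intro a b c; rw [add_mul, mul_add, map_add])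
        (by intro r a c; rw [smul_mul_assoc, mul_smul_comm, map_smul])
    obtain ⟨z, hz⟩ := Pool.Agent.Q26.KF.exists_eq_of_orth b
      (fun z : liftsSub S => op R₀ z.1) (fun c : M₀ ⟶ M₀ => op R₀ c)
      ((pairing R₀ hC₀ M₀).domRestrict (liftsSub S))
      (by
        intro z c
        change ((rat hC₀ (z.1 ≫ c) : ℚ) : K₀) =
          LinearMap.trace K₀ (R₀.H.obj M₀) (gr R₀ M₀ * (op R₀ c * op R₀ z.1))
        rw [rat_eq R₀, op_comp])
      (pairing R₀ hC₀ M₀ P)
      (by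
        intro c hc
        change rat hC₀ (P ≫ c) = 0
        rw [rat_zero_iff hC₀ R₀]
        refine h c fun x hx => ?_
        exact (rat_zero_iff hC₀ R₀ _).1 (hc ⟨x, hx⟩))
    refine ⟨z.1, z.2, fun c => ?_⟩
    have h1 : rat hC₀ (z.1 ≫ c) = rat hC₀ (P ≫ c) := congrArg (fun ψ => ψ c) hz
    rw [ctr_eq_zero_iff R₀ hC₀, op_comp, op_sub, mul_sub, mul_sub, map_sub, ← op_comp, ← op_comp,
      ← rat_eq R₀ hC₀, ← rat_eq R₀ hC₀, h1, sub_self]

/-- The sign conjecture and specialization. -/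
theorem nc_tfae (hC : RationalUnit C) (hC₀ : RationalUnit C₀) (S : Specialization R R₀ M M₀) :
    [R.CPlus M, R₀.CPlus M₀ ∧ EvenLifts S, R₀.CPlus M₀ ∧ EvenOrthogonal S,
      InvolutionLifts S].TFAE := by
  tfae_have 1 → 2 := fun h => ⟨cplus_fibre S h, one_two hC₀ S h⟩
  tfae_have 2 → 4 := fun h => two_four hC₀ S h.1 h.2
  tfae_have 4 → 1 := fun h => four_one hC hC₀ S h
  tfae_have 2 → 3 := fun h => ⟨h.1, fun c hc P hP => (two_iff_three hC₀ S P).1 (h.2 P hP) c hc⟩
  tfae_have 3 → 2 := fun h => ⟨h.1, fun P hP => (two_iff_three hC₀ S P).2 fun c hc =>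
    h.2 c hc P hP⟩
  tfae_finish

end Two

end Pool.Agent.Q26.KP
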