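import Pool.Agent.Q26.KP.CDefs
import Pool.Agent.Q26.KP.NMain

/-!
# The sign conjecture in families with a compactification
-/

set_option autoImplicit false
set_option linter.unusedSectionVars false
set_option backward.isDefEq.respectTransparency false
set_option backward.defeqAttrib.useBackward true

open CategoryTheory hiding op_comp op_id op_sub op_add
open Limits MonoidalCategory Polynomial

namespace Pool.Agent.Q26.KP

open Pool.Agent.Y112.SR Q20.Cp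

universe v u w v₀ u₀ w₀

open Functor.LaxMonoidal Functor.OplaxMonoidal

/-- slide a point along a partial trace -/
theorem slide {D : Type u} [Category.{v} D] [MonoidalCategory D] {B M N : D} (z : 𝟙_ D ⟶ B)
    (co : 𝟙_ D ⟶ M ⊗ N) (g : B ⊗ M ⟶ M) (ev : M ⊗ N ⟶ 𝟙_ D) :
    z ≫ (ρ_ B).inv ≫ B ◁ co ≫ (α_ B M N).inv ≫ g ▷ N ≫ ev =
      co ≫ ((λ_ M).inv ≫ z ▷ M ≫ g) ▷ N ≫ ev := by
  rw [rightUnitor_inv_naturality_assoc, ← whisker_exchange_assoc]
  simp only [comp_whiskerRight, Category.assoc]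
  rw [whiskerRight_tensor_assoc]
  simp [← unitors_inv_equal]

section

variable {C₀ : Type u₀} [Category.{v₀} C₀] [Preadditive C₀] [Linear ℚ C₀] [MonoidalCategory C₀]
  [SymmetricCategory C₀] [RightRigidCategory C₀] {K₀ : Type w₀} [Field K₀]
  (R₀ : SuperRealisation C₀ K₀) {M₀ B : C₀}

theorem comp_imE (r : B ⊗ M₀ ⟶ M₀) (c : M₀ ⟶ M₀) (z : 𝟙_ C₀ ⟶ B) :
    z ≫ imE r c = ctr (resE r z ≫ c) := by
  rw [imE, slide z (η_ M₀ M₀ᘁ) (r ≫ c) ((β_ M₀ M₀ᘁ).hom ≫ ε_ M₀ M₀ᘁ), ctr, resE]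
  simp only [Category.assoc]

theorem map_imE (r : B ⊗ M₀ ⟶ M₀) (c : M₀ ⟶ M₀) :
    R₀.H.map (imE r c) ≫ η R₀.H = (ρ_ _).inv ≫ R₀.H.obj B ◁ coe R₀ M₀ ≫ (α_ _ _ _).inv ≫
      (μ R₀.H B M₀ ≫ R₀.H.map (r ≫ c)) ▷ R₀.H.obj M₀ᘁ ≫ eva R₀ M₀ := by
  simp only [imE, coe, eva, Functor.map_comp, Functor.Monoidal.map_whiskerLeft,
    Functor.Monoidal.map_whiskerRight, Functor.Monoidal.map_associator_inv,
    Functor.Monoidal.map_rightUnitor_inv, Category.assoc, Functor.Monoidal.μ_δ_assoc,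
    comp_whiskerRight, MonoidalCategory.whiskerLeft_comp]

theorem coe_eva {N : C₀} (h2 : (2 : K₀) ≠ 0) (g : R₀.H.obj N ⟶ R₀.H.obj N) :
    coe R₀ N ≫ g ▷ R₀.H.obj Nᘁ ≫ eva R₀ N =
      (LinearMap.trace K₀ (R₀.H.obj N) (g ≫ R₀.par N).hom) • 𝟙 _ := by
  have h0 := R₀.finite N
  have h1 := Pool.Agent.Y116.MT.vec_trace (coe R₀ N) (evb R₀ N) (zigzag R₀ N) (g ≫ R₀.par N)
  rw [eva_eq R₀ h2, ← h1, ← unit_hom]
  simp only [comp_whiskerRight, Category.assoc]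

theorem str_resH (h2 : (2 : K₀) ≠ 0) (r : B ⊗ M₀ ⟶ M₀) (c : M₀ ⟶ M₀)
    (h : 𝟙_ (ModuleCat.{w₀} K₀) ⟶ R₀.H.obj B) :
    h ≫ R₀.H.map (imE r c) ≫ η R₀.H = (LinearMap.trace K₀ (R₀.H.obj M₀)
      (resH R₀ r h ≫ R₀.H.map c ≫ R₀.par M₀).hom) • 𝟙 _ := by
  rw [map_imE, slide h (coe R₀ M₀) (μ R₀.H B M₀ ≫ R₀.H.map (r ≫ c)) (eva R₀ M₀), coe_eva R₀ h2]
  simp only [resH, Functor.map_comp, Category.assoc]

theorem map_resE (r : B ⊗ M₀ ⟶ M₀) (z : 𝟙_ C₀ ⟶ B) :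
    R₀.H.map (resE r z) = resH R₀ r (ε R₀.H ≫ R₀.H.map z) := by
  simp only [resE, resH, Functor.map_comp, Functor.Monoidal.map_leftUnitor_inv,
    Functor.Monoidal.map_whiskerRight, Category.assoc, Functor.Monoidal.μ_δ_assoc,
    comp_whiskerRight]

theorem resH_add (r : B ⊗ M₀ ⟶ M₀) (h h' : 𝟙_ (ModuleCat.{w₀} K₀) ⟶ R₀.H.obj B) :
    resH R₀ r (h + h') = resH R₀ r h + resH R₀ r h' := by
  simp only [resH, MonoidalPreadditive.add_whiskerRight, Preadditive.add_comp,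
    Preadditive.comp_add]

theorem resH_smul (r : B ⊗ M₀ ⟶ M₀) (c : K₀) (h : 𝟙_ (ModuleCat.{w₀} K₀) ⟶ R₀.H.obj B) :
    resH R₀ r (c • h) = c • resH R₀ r h := by
  simp only [resH, MonoidalLinear.smul_whiskerRight, Linear.smul_comp, Linear.comp_smul]

theorem op_resE_add (r : B ⊗ M₀ ⟶ M₀) (z z' : 𝟙_ C₀ ⟶ B) :
    op R₀ (resE r (z + z')) = op R₀ (resE r z) + op R₀ (resE r z') := by
  have h : R₀.H.map (resE r (z + z')) = R₀.H.map (resE r z) + R₀.H.map (resE r z') := by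
    rw [map_resE, map_resE, map_resE, Functor.map_add, Preadditive.comp_add, resH_add]
  exact congrArg ModuleCat.Hom.hom h

theorem op_resE_smul (r : B ⊗ M₀ ⟶ M₀) (q : ℚ) (z : 𝟙_ C₀ ⟶ B) :
    op R₀ (resE r (q • z)) = (q : K₀) • op R₀ (resE r z) := by
  have := R_charZero R₀
  have h : R₀.H.map (resE r (q • z)) = (q : K₀) • R₀.H.map (resE r z) := by
    rw [map_resE, map_resE, R_smul, Linear.comp_smul, resH_smul]
  exact congrArg ModuleCat.Hom.hom h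

/-- the pairing -/
noncomputable def pairingB (hC₀ : RationalUnit C₀) (r : B ⊗ M₀ ⟶ M₀) :
    (𝟙_ C₀ ⟶ B) →ₗ[ℚ] (M₀ ⟶ M₀) →ₗ[ℚ] ℚ :=
  haveI := R_charZero R₀
  LinearMap.mk₂ ℚ (fun z c => rat hC₀ (resE r z ≫ c))
    (by
      intro m₁ m₂ c
      apply Rat.cast_injective (α := K₀)
      rw [Rat.cast_add, rat_eq R₀, rat_eq R₀, rat_eq R₀, op_comp, op_comp, op_comp, op_resE_add,
        mul_add, mul_add, map_add])
    (by
      intro r m c
      apply Rat.cast_injective (α := K₀)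
      rw [smul_eq_mul, Rat.cast_mul, rat_eq R₀, rat_eq R₀, op_comp, op_comp, op_resE_smul,
        mul_smul_comm, mul_smul_comm, map_smul, smul_eq_mul])
    (by
      intro m c₁ c₂
      apply Rat.cast_injective (α := K₀)
      rw [Rat.cast_add, rat_eq R₀, rat_eq R₀, rat_eq R₀, op_comp, op_comp, op_comp, op_add, add_mul,
        mul_add, map_add])
    (by
      intro r m c
      apply Rat.cast_injective (α := K₀)
      rw [smul_eq_mul, Rat.cast_mul, rat_eq R₀, rat_eq R₀, op_comp, op_comp, op_smul,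
        smul_mul_assoc, mul_smul_comm, map_smul, smul_eq_mul])

include R₀ in
theorem ext_iff (hC₀ : RationalUnit C₀) (r : B ⊗ M₀ ⟶ M₀) (P : M₀ ⟶ M₀) :
    (∃ z, NumTriv (resE r z - P)) ↔
      ∀ c, (∀ z : 𝟙_ C₀ ⟶ B, z ≫ imE r c = 0) → ctr (P ≫ c) = 0 := by
  have := R_charZero R₀
  have := R₀.finite M₀
  constructor
  · rintro ⟨z, hn⟩ c hc
    have h1 := hc z
    rw [comp_imE] at h1
    have h2 := hn c
    rw [ctr_eq_zero_iff R₀ hC₀] at h1 h2 ⊢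
    rw [op_comp, op_sub, mul_sub, mul_sub, map_sub, ← op_comp, ← op_comp, h1, zero_sub,
      neg_eq_zero] at h2
    exact h2
  · intro h
    let b : Module.End K₀ (R₀.H.obj M₀) →ₗ[K₀] Module.End K₀ (R₀.H.obj M₀) →ₗ[K₀] K₀ :=
      LinearMap.mk₂ K₀ (fun f g => LinearMap.trace K₀ (R₀.H.obj M₀) (gr R₀ M₀ * (g * f)))
        (by intro a b c; rw [mul_add, mul_add, map_add])
        (by intro r a c; rw [mul_smul_comm, mul_smul_comm, map_smul])
        (by intro a b c; rw [add_mul, mul_add, map_add])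
        (by intro r a c; rw [smul_mul_assoc, mul_smul_comm, map_smul])
    obtain ⟨z, hz⟩ := Pool.Agent.Q26.KF.exists_eq_of_orth b
      (fun z : 𝟙_ C₀ ⟶ B => op R₀ (resE r z)) (fun c : M₀ ⟶ M₀ => op R₀ c)
      (pairingB R₀ hC₀ r)
      (by
        intro z c
        change ((rat hC₀ (resE r z ≫ c) : ℚ) : K₀) =
          LinearMap.trace K₀ (R₀.H.obj M₀) (gr R₀ M₀ * (op R₀ c * op R₀ (resE r z)))
        rw [rat_eq R₀, op_comp])
      (pairing R₀ hC₀ M₀ P)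
      (by
        intro c hc
        change rat hC₀ (P ≫ c) = 0
        rw [rat_zero_iff hC₀ R₀]
        refine h c fun z => ?_
        rw [comp_imE]
        exact (rat_zero_iff hC₀ R₀ _).1 (hc z))
    refine ⟨z, fun c => ?_⟩
    have h1 : rat hC₀ (resE r z ≫ c) = rat hC₀ (P ≫ c) := congrArg (fun ψ => ψ c) hz
    rw [ctr_eq_zero_iff R₀ hC₀, op_comp, op_sub, mul_sub, mul_sub, map_sub, ← op_comp, ← op_comp,
      ← rat_eq R₀ hC₀, ← rat_eq R₀ hC₀, h1, sub_self]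

end

section Two

variable {C : Type u} [Category.{v} C] [Preadditive C] [Linear ℚ C] [MonoidalCategory C]
  [SymmetricCategory C] [RightRigidCategory C]
  {C₀ : Type u₀} [Category.{v₀} C₀] [Preadditive C₀] [Linear ℚ C₀] [MonoidalCategory C₀]
  [SymmetricCategory C₀] [RightRigidCategory C₀]
  {K : Type w} [Field K] {K₀ : Type w₀} [Field K₀]
  {R : SuperRealisation C K} {R₀ : SuperRealisation C₀ K₀} {M : C} {M₀ B : C₀}
  {S : Specialization R R₀ M M₀}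

theorem even_inv (T : Compactification S B) {P : M₀ ⟶ M₀} (hP : IsEvenEnd R₀ M₀ P) :
    T.Inv (R₀.H.map P) := by
  have := R_charZero R₀
  have h2 : (2 : K₀) ≠ 0 := two_ne_zero
  have hP' : R₀.H.map P = (2 : K₀)⁻¹ • (𝟙 _ + R₀.par M₀) := by
    have hP2 : (2 : K₀) • R₀.H.map P = 𝟙 _ + R₀.par M₀ := hP
    rw [← hP2, smul_smul, inv_mul_cancel₀ h2, one_smul]
  refine ⟨R₀.par_natural P, fun g hg => ?_⟩
  rw [hP', Linear.smul_comp, Linear.comp_smul, Preadditive.add_comp, Preadditive.comp_add,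
    T.parity g hg, Category.id_comp, Category.comp_id]

theorem extendsTo_of_cplus (hC₀ : RationalUnit C₀) (T : Compactification S B) (h : R.CPlus M) :
    ExtendsTo T := by
  intro P hP
  have := R_charZero R₀
  obtain ⟨x, ⟨w, hw⟩, hx⟩ := lift_of_cplus S h
  have hl : Lifts S ((2⁻¹ : ℚ) • x + (2⁻¹ : ℚ) • 𝟙 M₀) := ⟨_, lifts_affine S hw 2⁻¹ 2⁻¹⟩
  have h1 : op R₀ ((2⁻¹ : ℚ) • x + (2⁻¹ : ℚ) • 𝟙 M₀) = op R₀ P := by
    have hP' := (isEvenEnd_iff R₀ P).1 hP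
    have h2 : (2 : K₀) ≠ 0 := two_ne_zero
    have h3 : (2 : K₀) • op R₀ ((2⁻¹ : ℚ) • x + (2⁻¹ : ℚ) • 𝟙 M₀) = (2 : K₀) • op R₀ P := by
      rw [op_add, op_smul, op_smul, op_id, smul_add, smul_smul, smul_smul, hP', hx]
      push_cast
      rw [mul_inv_cancel₀ h2, one_smul, one_smul]
      abel
    exact smul_right_injective _ h2 h3
  have h2 : R₀.H.map ((2⁻¹ : ℚ) • x + (2⁻¹ : ℚ) • 𝟙 M₀) = R₀.H.map P := ModuleCat.hom_ext h1
  obtain ⟨z, hz⟩ := T.descent _ hl (by rw [h2]; exact even_inv T hP)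
  refine ⟨z, ?_⟩
  have h3 : op R₀ (resE T.r z) = op R₀ P := by
    rw [← h1]
    exact congrArg ModuleCat.Hom.hom hz
  rw [numTriv_iff R₀ hC₀]
  intro g
  rw [op_sub, h3, sub_self, zero_mul, mul_zero, map_zero]

theorem comp_tfae (hC : RationalUnit C) (hC₀ : RationalUnit C₀) (T : Compactification S B) :
    [R.CPlus M, R₀.CPlus M₀ ∧ ExtendsTo T, R₀.CPlus M₀ ∧ OrthogonalTo T].TFAE := by
  have h0 := nc_tfae hC hC₀ S
  tfae_have 1 → 2 := fun h => ⟨cplus_fibre S h, extendsTo_of_cplus hC₀ T h⟩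
  tfae_have 2 → 3 := fun h => ⟨h.1, fun c hc P hP => (ext_iff R₀ hC₀ T.r P).1 (h.2 P hP) c hc⟩
  tfae_have 3 → 1 := by
    intro h
    have h1 := h0.out 1 0
    refine h1.1 ⟨h.1, fun P hP => ?_⟩
    obtain ⟨z, hz⟩ := (ext_iff R₀ hC₀ T.r P).2 fun c hc => h.2 c hc P hP
    exact ⟨_, T.generic z, hz⟩
  tfae_finish

theorem comp_homEqNum (hC : RationalUnit C) (hC₀ : RationalUnit C₀) (T : Compactification S B)
    (hD : HomEqNumIn T) : R.CPlus M ↔ R₀.CPlus M₀ := by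
  have := R_charZero R₀
  refine ⟨cplus_fibre S, fun h => ?_⟩
  have h3 := (comp_tfae hC hC₀ T).out 2 0
  refine h3.1 ⟨h, fun c hc P hP => ?_⟩
  have h4 := hD c hc
  obtain ⟨h, hh⟩ := T.fixed _ (even_inv T hP)
  have h5 := str_resH R₀ two_ne_zero T.r c h
  rw [h4, Limits.zero_comp, Limits.comp_zero, hh] at h5
  rw [ctr_eq_zero_iff R₀ hC₀, op_comp]
  have h6 := LinearMap.congr_fun (congrArg ModuleCat.Hom.hom h5) (1 : K₀)
  change (0 : K₀) = (LinearMap.trace K₀ (R₀.H.obj M₀)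
    (R₀.H.map P ≫ R₀.H.map c ≫ R₀.par M₀).hom) • (1 : K₀) at h6
  rw [smul_eq_mul, mul_one] at h6
  exact h6.symm

end Two

end Pool.Agent.Q26.KP
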