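import Pool.Agent.Q26.KF.Defs
import Pool.Agent.H447R3.SpDefs

/-!
# The even Kunneth projector in families: definitions
-/

open CategoryTheory AlgebraicGeometry

universe u v u₀ v₀

namespace Pool.Agent.Q26.KP

open Pool.Agent.H914 Pool.Agent.H914.VarClass Pool.Agent.H914.VarClass.Obj
  Pool.Agent.H914.WeilCohomology Pool.Agent.H447 Pool.Agent.Q26.KF

variable {k : Type u} [Field k] {𝒱 : VarClass k} {ops : CycleOps 𝒱}
  {k₀ : Type u₀} [Field k₀] {𝒱₀ : VarClass k₀} {ops₀ : CycleOps 𝒱₀}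
  {W : WeilCohomology.{u, v} ops} {W₀ : WeilCohomology.{u₀, v₀} ops₀} {X : 𝒱.Obj}
  {X₀ Y : 𝒱₀.Obj}

/-- The cycle `P` on `X × X` gives the even Kunneth projector of `X`: it induces the projector of
`H(X)` onto the sum of the `H^i(X)` with `i` even. -/
def IsEven (W : WeilCohomology.{u, v} ops) (X : 𝒱.Obj) (P : (X.prod X).Cycles) : Prop :=
  (X.prod X).IsCyc X.dim P ∧ IsEvenProj (W.gr X) (op W X P)

/-- For every cycle `P` on `X₀ × X₀` which gives the even Kunneth projector of `X₀` there is a cycle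
on `Y` whose restriction to `X₀ × X₀` is numerically equivalent to `P`. -/
def ExtendsEven (F : Family W W₀ X X₀ Y) : Prop :=
  ∀ P, IsEven W₀ X₀ P → ∃ z, Y.IsCyc X₀.dim z ∧
    ∀ c, (X₀.prod X₀).IsCyc X₀.dim c → deg ops₀ (X₀.prod X₀) (F.res z) c = deg ops₀ (X₀.prod X₀) P c

/-- The intersection numbers of the cycles `P` on `X₀ × X₀` which give the even Kunneth projector of
`X₀` with all cycles on `X₀ × X₀` whose images in `Y` are numerically trivial are zero. -/
def OrthogonalEven (F : Family W W₀ X X₀ Y) : Prop :=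
  ∀ c, (X₀.prod X₀).IsCyc X₀.dim c → NumTrivialOn F c →
    ∀ P, IsEven W₀ X₀ P → deg ops₀ (X₀.prod X₀) P c = 0

end Pool.Agent.Q26.KP
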