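import Pool.Agent.Q20.Cp.Stmt

/-!
# The sign conjecture and specialization: definitions
-/

set_option autoImplicit false

open CategoryTheory Limits MonoidalCategory

namespace Pool.Agent.Q26.KP

open Pool.Agent.Y112.SR Q20.Cp

universe v u w v₀ u₀ w₀

section

variable {K L A B : Type*} [Field K] [Field L] [AddCommGroup A] [Module K A] [AddCommGroup B]
  [Module L B]

/-- The isomorphism `e` is semilinear for the isomorphism `s` of the coefficients. -/
def IsSemilinear (s : K ≃+* L) (e : A ≃+ B) : Prop := ∀ (r : K) (a : A), e (r • a) = s r • e a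

/-- The operators `f` and `f'` correspond to each other under the isomorphism `e`. -/
def Corresponds (e : A ≃+ B) (f : A →ₗ[K] A) (f' : B →ₗ[L] B) : Prop := ∀ a, e (f a) = f' (e a)

end

variable {C : Type u} [Category.{v} C] [Preadditive C] [MonoidalCategory C] [SymmetricCategory C]
  {C₀ : Type u₀} [Category.{v₀} C₀] [Preadditive C₀] [MonoidalCategory C₀] [SymmetricCategory C₀]
  {K : Type w} [Field K] {K₀ : Type w₀} [Field K₀]

/-- The isomorphism which gives the specialization from `M` to `M₀` in cohomology: it is semilinear
for the isomorphism `s` of the coefficients. -/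
structure SpecializationMap (R : SuperRealisation C K) (R₀ : SuperRealisation C₀ K₀) (M : C)
    (M₀ : C₀) where
  /-- the isomorphism of the coefficients -/
  s : K ≃+* K₀
  /-- the specialization in cohomology -/
  e : R.H.obj M ≃+ R₀.H.obj M₀

section

variable {R : SuperRealisation C K} {R₀ : SuperRealisation C₀ K₀} {M : C} {M₀ : C₀}

/-- The endomorphism `x` of `M₀` is a specialization of the endomorphism `w` of `M`: their
realisations correspond to each other. -/
def SpecializationMap.Gives (S : SpecializationMap R R₀ M M₀) (w : M ⟶ M) (x : M₀ ⟶ M₀) : Prop :=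
  Corresponds S.e (R.H.map w).hom (R₀.H.map x).hom

end

/-- `M` is the noncommutative motive of the geometric generic fibre, and `M₀` the one of a special
fibre of a family of smooth proper dg categories. `specializes`: each endomorphism of `M` (a class in
`K_0` with rational coefficients) has a specialization. -/
structure Specialization (R : SuperRealisation C K) (R₀ : SuperRealisation C₀ K₀) (M : C)
    (M₀ : C₀) extends SpecializationMap R R₀ M M₀ where
  semi : IsSemilinear s e
  par : Corresponds e (R.par M).hom (R₀.par M₀).hom
  specializes : ∀ w : M ⟶ M, ∃ x : M₀ ⟶ M₀, toSpecializationMap.Gives w x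

variable {R : SuperRealisation C K} {R₀ : SuperRealisation C₀ K₀} {M : C} {M₀ : C₀}

/-- The endomorphism `x` of `M₀` lifts to `M`, that is, it is a specialization of an endomorphism of
`M`. -/
def Lifts (S : Specialization R R₀ M M₀) (x : M₀ ⟶ M₀) : Prop := ∃ w : M ⟶ M, S.Gives w x

/-- The realisation of the endomorphism `P` of `M` is the projector to the even part. -/
def IsEvenEnd (R : SuperRealisation C K) (M : C) (P : M ⟶ M) : Prop :=
  (2 : K) • R.H.map P = 𝟙 _ + R.par M

variable [RightRigidCategory C₀]

/-- The endomorphism `c` of `M₀` is orthogonal to the endomorphisms which lift to `M`. -/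
def OrthToLifts (S : Specialization R R₀ M M₀) (c : M₀ ⟶ M₀) : Prop :=
  ∀ x, Lifts S x → ctr (x ≫ c) = 0

/-- The endomorphisms of `M₀` which give the even projector are numerically equivalent to
endomorphisms which lift to `M`. -/
def EvenLifts (S : Specialization R R₀ M M₀) : Prop :=
  ∀ P, IsEvenEnd R₀ M₀ P → ∃ x, Lifts S x ∧ NumTriv (x - P)

/-- The endomorphisms of `M₀` which give the even projector are orthogonal to those which are
orthogonal to the endomorphisms which lift to `M`. -/
def EvenOrthogonal (S : Specialization R R₀ M M₀) : Prop :=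
  ∀ c, OrthToLifts S c → ∀ P, IsEvenEnd R₀ M₀ P → ctr (P ≫ c) = 0

/-- Some endomorphism of `M₀` which lifts to `M` has the trace `dim H(M₀)`, and its square is
numerically equivalent to the identity. -/
def InvolutionLifts [Linear ℚ C₀] (S : Specialization R R₀ M M₀) : Prop :=
  ∃ x, Lifts S x ∧ NumTriv (x ≫ x - 𝟙 M₀) ∧ ctr x = (dimH R₀ M₀ : ℚ) • 𝟙 (𝟙_ C₀)

end Pool.Agent.Q26.KP
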